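import Pool.Agent.Helper74.WB.St

/-! Project WB (MP_26f0da_lc), module IND: induced subgraphs. -/

set_option autoImplicit false

namespace Pool.Agent.Helper75.WB

open Pool.Agent.Helper74 Pool.Agent.Helper74.WB Pool.Agent.Helper74.NM

theorem hIND : StIND := by
  intro n Γ e w
  constructor
  · intro h
    induction h with
    | nil => exact NC.nil
    | wrap a b u v hab _ _ ihu ihv =>
      rw [List.map_cons, List.map_append, List.map_cons]
      exact NC.wrap _ _ _ _ (e.map_adj_iff.2 hab) ihu ihv
  · intro h
    generalize hw : w.map e = w' at h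
    induction h generalizing w with
    | nil =>
      rw [List.map_eq_nil_iff] at hw
      rw [hw]
      exact NC.nil
    | wrap a b u v hab _ _ ihu ihv =>
      rw [List.map_eq_cons_iff] at hw
      obtain ⟨a', w1, rfl, rfl, hw1⟩ := hw
      rw [List.map_eq_append_iff] at hw1
      obtain ⟨u', w2, rfl, hu', hw2⟩ := hw1
      rw [List.map_eq_cons_iff] at hw2
      obtain ⟨b', v', rfl, rfl, hv'⟩ := hw2
      exact NC.wrap _ _ _ _ (e.map_adj_iff.1 hab) (ihu u' hu') (ihv v' hv')

end Pool.Agent.Helper75.WB
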